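import Pool.Agent.GTO.StmtsA

/-! Squad GTO, module BAS. -/

namespace Pool.Agent.GTO.H52

open Finset
open scoped Classical

theorem ip_cr (u v w : V) : ip (cr u v) w = dt u v w := by
  simp only [ip, cr, dt, Matrix.cons_val_zero, Matrix.cons_val_one, Matrix.cons_val]
  ring

theorem dt_cyc (u v w : V) : dt u v w = dt v w u := by
  simp only [dt]; ring

theorem dt_swap (u v w : V) : dt u v w = - dt v u w := by
  simp only [dt]; ring

theorem vext {x y : V} (h0 : x 0 = y 0) (h1 : x 1 = y 1) (h2 : x 2 = y 2) : x = y := by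
  funext i
  fin_cases i
  · exact h0
  · exact h1
  · exact h2

theorem cramer (u v w x : V) :
    dt u v w • x = dt x v w • u + dt u x w • v + dt u v x • w := by
  apply vext <;> simp only [dt, Pi.smul_apply, Pi.add_apply, smul_eq_mul] <;> ring

theorem cr_eq_zero_iff (u v : V) :
    cr u v = 0 ↔ u 1 * v 2 - u 2 * v 1 = 0 ∧ u 2 * v 0 - u 0 * v 2 = 0 ∧
      u 0 * v 1 - u 1 * v 0 = 0 := by
  constructor
  · intro h
    have h0 := congrFun h 0
    have h1 := congrFun h 1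
    have h2 := congrFun h 2
    simp only [cr, Matrix.cons_val_zero, Matrix.cons_val_one, Matrix.cons_val, Pi.zero_apply]
      at h0 h1 h2
    exact ⟨h0, h1, h2⟩
  · rintro ⟨h0, h1, h2⟩
    apply vext <;>
      simp only [cr, Matrix.cons_val_zero, Matrix.cons_val_one, Matrix.cons_val, Pi.zero_apply] <;>
      assumption

theorem cr_ne_iff (u v : V) : cr u v ≠ 0 ↔ LinearIndependent ℝ ![u, v] := by
  rw [LinearIndependent.pair_iff]
  constructor
  · intro h s t hst
    by_contra hne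
    apply h
    rw [cr_eq_zero_iff]
    have e0 := congrFun hst 0
    have e1 := congrFun hst 1
    have e2 := congrFun hst 2
    simp only [Pi.smul_apply, Pi.add_apply, smul_eq_mul, Pi.zero_apply] at e0 e1 e2
    by_cases hs : s = 0
    · have ht : t ≠ 0 := fun ht => hne ⟨hs, ht⟩
      subst hs
      have f0 : v 0 = 0 := by
        have : t * v 0 = 0 := by linarith
        exact (mul_eq_zero.mp this).resolve_left ht
      have f1 : v 1 = 0 := by
        have : t * v 1 = 0 := by linarith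
        exact (mul_eq_zero.mp this).resolve_left ht
      have f2 : v 2 = 0 := by
        have : t * v 2 = 0 := by linarith
        exact (mul_eq_zero.mp this).resolve_left ht
      rw [f0, f1, f2]
      simp
    · refine ⟨?_, ?_, ?_⟩ <;> apply mul_left_cancel₀ hs
      · linear_combination v 2 * e1 - v 1 * e2
      · linear_combination v 0 * e2 - v 2 * e0
      · linear_combination v 1 * e0 - v 0 * e1
  · intro h hc
    rw [cr_eq_zero_iff] at hc
    obtain ⟨h0, h1, h2⟩ := hc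
    -- u = 0 or v is a multiple
    have hu : u = 0 := by
      by_contra hu
      have key : ∀ i : Fin 3, u i ≠ 0 → False := by
        intro i hi
        have := h (v i) (- u i) (by
          apply vext <;> fin_cases i <;>
            simp only [Pi.smul_apply, Pi.add_apply, smul_eq_mul, Pi.zero_apply, Fin.zero_eta,
              Fin.mk_one, Fin.reduceFinMk] <;> linarith)
        exact hi (neg_eq_zero.mp this.2)
      apply hu
      apply vext
      · by_contra hh; exact key 0 hh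
      · by_contra hh; exact key 1 hh
      · by_contra hh; exact key 2 hh
    have := h 1 0 (by rw [hu]; simp)
    exact one_ne_zero this.1

theorem dt_zero_iff (u v x : V) (h : cr u v ≠ 0) :
    dt u v x = 0 ↔ ∃ s t : ℝ, x = s • u + t • v := by
  constructor
  · intro hd
    -- some component of cr u v is non-zero
    have hne : ∃ i, cr u v i ≠ 0 := by
      by_contra hh
      push Not at hh
      exact h (funext hh)
    have hd' : u 0 * (v 1 * x 2 - v 2 * x 1) - u 1 * (v 0 * x 2 - v 2 * x 0) +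
        u 2 * (v 0 * x 1 - v 1 * x 0) = 0 := hd
    obtain ⟨i, hi⟩ := hne
    have fin : ∀ D α β : ℝ, D ≠ 0 → D * x 0 = α * u 0 + β * v 0 →
        D * x 1 = α * u 1 + β * v 1 → D * x 2 = α * u 2 + β * v 2 →
        ∃ s t : ℝ, x = s • u + t • v := by
      intro D α β hD h0 h1 h2
      refine ⟨α / D, β / D, ?_⟩
      apply vext <;> simp only [Pi.smul_apply, Pi.add_apply, smul_eq_mul] <;>
        apply mul_left_cancel₀ hD
      · rw [h0]; field_simp
      · rw [h1]; field_simp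
      · rw [h2]; field_simp
    fin_cases i
    · simp only [cr, Fin.zero_eta, Matrix.cons_val_zero] at hi
      refine fin _ (x 1 * v 2 - x 2 * v 1) (u 1 * x 2 - u 2 * x 1) hi ?_ ?_ ?_
      · linear_combination hd'
      · ring
      · ring
    · simp only [cr, Fin.mk_one, Matrix.cons_val_one, Matrix.cons_val] at hi
      refine fin _ (x 2 * v 0 - x 0 * v 2) (u 2 * x 0 - u 0 * x 2) hi ?_ ?_ ?_
      · ring
      · linear_combination hd'
      · ring
    · simp only [cr, Fin.reduceFinMk, Matrix.cons_val] at hi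
      refine fin _ (x 0 * v 1 - x 1 * v 0) (u 0 * x 1 - u 1 * x 0) hi ?_ ?_ ?_
      · ring
      · ring
      · linear_combination hd'
  · rintro ⟨s, t, rfl⟩
    simp only [dt, Pi.smul_apply, Pi.add_apply, smul_eq_mul]
    ring

theorem solve (u v w : V) (h : dt u v w ≠ 0) (p q r : ℝ) :
    ∃ x : V, ip u x = p ∧ ip v x = q ∧ ip w x = r := by
  refine ⟨(1 / dt u v w) • (p • cr v w + q • cr w u + r • cr u v), ?_, ?_, ?_⟩ <;>
    simp only [ip, cr, Pi.smul_apply, Pi.add_apply, smul_eq_mul, Matrix.cons_val_zero,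
      Matrix.cons_val_one, Matrix.cons_val] <;> field_simp <;> simp only [dt] <;> ring

section

variable {ι : Type} [Fintype ι]

theorem mem_ln (a : ι → V) (i j k : ι) : k ∈ ln a i j ↔ dt (a i) (a j) (a k) = 0 := by
  simp [ln]

theorem left_mem (a : ι → V) (i j : ι) : i ∈ ln a i j := by
  rw [mem_ln]; simp only [dt]; ring

theorem right_mem (a : ι → V) (i j : ι) : j ∈ ln a i j := by
  rw [mem_ln]; simp only [dt]; ring

theorem ln_sub (a : ι → V) (hP : PI a) {i j k l : ι} (hij : i ≠ j)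
    (hk : k ∈ ln a i j) (hl : l ∈ ln a i j) : ln a i j ⊆ ln a k l := by
  intro m hm
  rw [mem_ln] at hk hl hm ⊢
  have hc := hP i j hij
  obtain ⟨s1, t1, e1⟩ := (dt_zero_iff _ _ _ hc).mp hk
  obtain ⟨s2, t2, e2⟩ := (dt_zero_iff _ _ _ hc).mp hl
  obtain ⟨s3, t3, e3⟩ := (dt_zero_iff _ _ _ hc).mp hm
  rw [e1, e2, e3]
  simp only [dt, Pi.smul_apply, Pi.add_apply, smul_eq_mul]
  ring

theorem ln_eq (a : ι → V) (hP : PI a) {i j k l : ι} (hij : i ≠ j) (hkl : k ≠ l)
    (hk : k ∈ ln a i j) (hl : l ∈ ln a i j) : ln a k l = ln a i j := by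
  apply Finset.Subset.antisymm _ (ln_sub a hP hij hk hl)
  apply ln_sub a hP hkl
  · exact ln_sub a hP hij hk hl (left_mem a i j)
  · exact ln_sub a hP hij hk hl (right_mem a i j)

theorem mem_lns (a : ι → V) (ℓ : Finset ι) : ℓ ∈ lns a ↔ ∃ i j, i ≠ j ∧ ln a i j = ℓ := by
  simp [lns]

/-- for a line `ℓ` and `i ≠ j` both in `ℓ` : `ln a i j = ℓ` -/
theorem eq_of_mem (a : ι → V) (hP : PI a) {ℓ : Finset ι} (hℓ : ℓ ∈ lns a) {i j : ι}
    (hij : i ≠ j) (hi : i ∈ ℓ) (hj : j ∈ ℓ) : ln a i j = ℓ := by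
  obtain ⟨k, l, hkl, rfl⟩ := (mem_lns a ℓ).mp hℓ
  exact ln_eq a hP hkl hij hi hj

/-- the pairs on a line -/
theorem pairs_card (a : ι → V) (hP : PI a) {ℓ : Finset ι} (hℓ : ℓ ∈ lns a) :
    ((univ : Finset (ι × ι)).filter fun p => p.1 ≠ p.2 ∧ ln a p.1 p.2 = ℓ).card =
      ℓ.card * (ℓ.card - 1) := by
  have h1 : ((univ : Finset (ι × ι)).filter fun p => p.1 ≠ p.2 ∧ ln a p.1 p.2 = ℓ) =
      ℓ.offDiag := by
    ext ⟨i, j⟩
    simp only [mem_filter, mem_univ, true_and, mem_offDiag]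
    constructor
    · rintro ⟨h, rfl⟩
      exact ⟨left_mem a i j, right_mem a i j, h⟩
    · rintro ⟨hi, hj, h⟩
      exact ⟨h, eq_of_mem a hP hℓ h hi hj⟩
  rw [h1, offDiag_card, Nat.mul_sub, mul_one]

theorem pairs_sum (a : ι → V) (hP : PI a) (S : Finset (Finset ι)) (hS : S ⊆ lns a) :
    ((univ : Finset (ι × ι)).filter fun p => p.1 ≠ p.2 ∧ ln a p.1 p.2 ∈ S).card =
      ∑ ℓ ∈ S, ℓ.card * (ℓ.card - 1) := by
  have h := Finset.card_eq_sum_card_fiberwise
    (s := (univ : Finset (ι × ι)).filter fun p => p.1 ≠ p.2 ∧ ln a p.1 p.2 ∈ S)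
    (t := S) (f := fun p => ln a p.1 p.2) (by
      intro p hp
      have hp' : p ∈ (univ : Finset (ι × ι)).filter fun p => p.1 ≠ p.2 ∧ ln a p.1 p.2 ∈ S := hp
      rw [mem_filter] at hp'
      exact hp'.2.2)
  rw [h]
  apply Finset.sum_congr rfl
  intro ℓ hℓ
  rw [← pairs_card a hP (hS hℓ), Finset.filter_filter]
  apply congrArg
  apply Finset.filter_congr
  intro p _
  constructor
  · rintro ⟨⟨h1, _⟩, h3⟩
    exact ⟨h1, h3⟩
  · rintro ⟨h1, h3⟩
    exact ⟨⟨h1, h3 ▸ hℓ⟩, h3⟩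

theorem lns_pairs (a : ι → V) (hP : PI a) :
    ∑ ℓ ∈ lns a, ℓ.card * (ℓ.card - 1) = Fintype.card ι * (Fintype.card ι - 1) := by
  rw [← pairs_sum a hP (lns a) (Finset.Subset.refl _)]
  have h1 : ((univ : Finset (ι × ι)).filter fun p => p.1 ≠ p.2 ∧ ln a p.1 p.2 ∈ lns a) =
      (univ : Finset ι).offDiag := by
    ext ⟨i, j⟩
    simp only [mem_filter, mem_univ, true_and, mem_offDiag]
    constructor
    · rintro ⟨h, _⟩
      exact h
    · intro h
      exact ⟨h, (mem_lns a _).mpr ⟨i, j, h, rfl⟩⟩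
  rw [h1, offDiag_card, card_univ, Nat.mul_sub, mul_one]

theorem lns_two (a : ι → V) : ∀ ℓ ∈ lns a, 2 ≤ ℓ.card := by
  intro ℓ hℓ
  obtain ⟨i, j, hij, rfl⟩ := (mem_lns a ℓ).mp hℓ
  exact Finset.one_lt_card.mpr ⟨i, left_mem a i j, j, right_mem a i j, hij⟩

theorem lns_pt (a : ι → V) (hP : PI a) (i : ι) :
    ∑ ℓ ∈ (lns a).filter (fun ℓ => i ∈ ℓ), (ℓ.card - 1) = Fintype.card ι - 1 := by
  have h := Finset.card_eq_sum_card_fiberwise
    (s := (univ : Finset ι).erase i)
    (t := (lns a).filter (fun ℓ => i ∈ ℓ)) (f := fun j => ln a i j) (by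
      intro j hj
      have hj' : j ∈ (univ : Finset ι).erase i := hj
      have hji : j ≠ i := (mem_erase.mp hj').1
      show ln a i j ∈ (lns a).filter (fun ℓ => i ∈ ℓ)
      rw [mem_filter]
      exact ⟨(mem_lns a _).mpr ⟨i, j, hji.symm, rfl⟩, left_mem a i j⟩)
  rw [card_erase_of_mem (mem_univ i), card_univ] at h
  rw [h]
  apply Finset.sum_congr rfl
  intro ℓ hℓ
  rw [mem_filter] at hℓ
  rw [← card_erase_of_mem hℓ.2]
  apply congrArg
  ext j
  simp only [mem_erase, mem_filter, mem_univ, and_true]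
  constructor
  · rintro ⟨h1, h2⟩
    exact ⟨h1, eq_of_mem a hP hℓ.1 (Ne.symm h1) hℓ.2 h2⟩
  · rintro ⟨h1, h2⟩
    exact ⟨h1, h2 ▸ right_mem a i j⟩

theorem lns_rr (a : ι → V) : ∑ ℓ ∈ lns a, ℓ.card = ∑ i, rr a i := by
  have h1 : ∀ ℓ ∈ lns a, ℓ.card = ∑ i, if i ∈ ℓ then 1 else 0 := by
    intro ℓ _
    rw [Finset.sum_ite_mem, univ_inter, Finset.sum_const, smul_eq_mul, mul_one]
  rw [Finset.sum_congr rfl h1, Finset.sum_comm]
  apply Finset.sum_congr rfl
  intro i _
  rw [rr, Finset.card_filter]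

theorem d2_eq (a : ι → V) (hP : PI a) :
    D2 a = ∑ ℓ ∈ (lns a).filter (fun ℓ => ℓ.card ≠ 3), ℓ.card * (ℓ.card - 1) := by
  rw [← pairs_sum a hP _ (Finset.filter_subset _ _), D2]
  apply congrArg
  apply Finset.filter_congr
  rintro ⟨i, j⟩ _
  constructor
  · rintro ⟨h1, h2⟩
    exact ⟨h1, mem_filter.mpr ⟨(mem_lns a _).mpr ⟨i, j, h1, rfl⟩, h2⟩⟩
  · rintro ⟨h1, h2⟩
    exact ⟨h1, (mem_filter.mp h2).2⟩

end

theorem bas : BasStmt := by
  refine ⟨fun u v w => ⟨ip_cr u v w, dt_cyc u v w, dt_swap u v w⟩, cramer, cr_ne_iff,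
    dt_zero_iff, solve, ?_⟩
  intro ι _ a hP
  exact ⟨fun i j k l h1 h2 h3 h4 => ln_eq a hP h1 h2 h3 h4,
    fun i j _ => ⟨left_mem a i j, right_mem a i j⟩, lns_pairs a hP, lns_pt a hP, lns_rr a,
    d2_eq a hP, lns_two a⟩

end Pool.Agent.GTO.H52
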