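import Pool.Agent.GTO.StmtsB
import Pool.Agent.Helper52_GTO.BAS

/-! Squad GTO, module LOW. -/

namespace Pool.Agent.GTO.H52

open Finset
open scoped Classical

variable {ι : Type} [Fintype ι]

theorem ln_comm (a : ι → V) (i j : ι) : ln a i j = ln a j i := by
  ext k
  rw [mem_ln, mem_ln, dt_swap (a i) (a j), neg_eq_zero]

/-- the third point of a line of three points -/
theorem third_pt (a : ι → V) {p q : ι} (hpq : p ≠ q) (h : (ln a p q).card = 3) :
    ∃ k, k ≠ p ∧ k ≠ q ∧ ln a p q = {p, q, k} := by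
  have hsub : ({p, q} : Finset ι) ⊆ ln a p q := by
    intro x hx
    rw [mem_insert, mem_singleton] at hx
    rcases hx with rfl | rfl
    · exact left_mem a _ _
    · exact right_mem a _ _
  have hc : (ln a p q \ {p, q}).card = 1 := by
    rw [card_sdiff_of_subset hsub, h, card_pair hpq]
  obtain ⟨k, hk⟩ := card_eq_one.mp hc
  have hk' : k ∈ ln a p q \ {p, q} := by rw [hk]; exact mem_singleton_self k
  rw [mem_sdiff, mem_insert, mem_singleton, not_or] at hk'
  refine ⟨k, hk'.2.1, hk'.2.2, ?_⟩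
  have : ln a p q = {p, q} ∪ (ln a p q \ {p, q}) := (union_sdiff_of_subset hsub).symm
  rw [hk] at this
  rw [this]
  ext x
  simp only [mem_union, mem_insert, mem_singleton]
  tauto

theorem low_main (a : ι → V) (c : Fin 10 → ℝ) (hP : PI a) :
    2 * ((Zc a c).card * (Fintype.card ι - (Zc a c).card)) ≤ 2 * TT a c + D2 a +
      2 * ((Fintype.card ι - (Zc a c).card) * (Fintype.card ι - (Zc a c).card - 1)) := by
  set Z := Zc a c with hZ
  have hcompl : (Zᶜ).card = Fintype.card ι - Z.card := card_compl Z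
  set S : Finset (ι × ι) := Z ×ˢ Zᶜ with hS
  have hScard : S.card = Z.card * (Fintype.card ι - Z.card) := by
    rw [hS, card_product, hcompl]
  have hmemS : ∀ p : ι × ι, p ∈ S ↔ p.1 ∈ Z ∧ p.2 ∉ Z := by
    intro p
    rw [hS, mem_product, mem_compl]
  have hne : ∀ p ∈ S, p.1 ≠ p.2 := by
    intro p hp h
    rw [hmemS] at hp
    exact hp.2 (h ▸ hp.1)
  set SA := S.filter fun p => (ln a p.1 p.2).card ≠ 3 with hSA
  set ST : Finset (ι × ι) := univ.filter fun p : ι × ι => p.1 ∈ Zc a c ∧ p.2 ∉ Zc a c ∧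
    ∃ k ∈ Zc a c, k ≠ p.1 ∧ ln a p.1 p.2 = {p.1, p.2, k} with hST
  set SC := S.filter fun p => ∃ k, k ∉ Z ∧ k ≠ p.2 ∧ ln a p.1 p.2 = {p.1, p.2, k} with hSC
  have hTT : TT a c = ST.card := rfl
  -- cover
  have hcov : S ⊆ SA ∪ (ST ∪ SC) := by
    intro p hp
    by_cases h3 : (ln a p.1 p.2).card = 3
    · obtain ⟨k, hk1, hk2, hk⟩ := third_pt a (hne p hp) h3
      have hp' := (hmemS p).mp hp
      by_cases hkZ : k ∈ Z
      · refine mem_union_right _ (mem_union_left _ ?_)
        rw [hST, mem_filter]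
        exact ⟨mem_univ _, hp'.1, hp'.2, k, hkZ, hk1, hk⟩
      · refine mem_union_right _ (mem_union_right _ ?_)
        rw [hSC, mem_filter]
        exact ⟨hp, k, hkZ, hk2, hk⟩
    · refine mem_union_left _ ?_
      rw [hSA, mem_filter]
      exact ⟨hp, h3⟩
  have hcard : S.card ≤ SA.card + (ST.card + SC.card) := by
    calc S.card ≤ (SA ∪ (ST ∪ SC)).card := card_le_card hcov
      _ ≤ SA.card + (ST ∪ SC).card := card_union_le _ _
      _ ≤ SA.card + (ST.card + SC.card) := Nat.add_le_add_left (card_union_le _ _) _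
  -- SA
  have hA : 2 * SA.card ≤ D2 a := by
    have hsw : (SA.image Prod.swap).card = SA.card :=
      card_image_of_injective _ Prod.swap_injective
    have hdis : Disjoint SA (SA.image Prod.swap) := by
      rw [Finset.disjoint_left]
      intro p hp hp2
      rw [mem_image] at hp2
      obtain ⟨r, hr, hrp⟩ := hp2
      have h1 := (hmemS p).mp (mem_filter.mp hp).1
      have h2 := (hmemS r).mp (mem_filter.mp hr).1
      rw [← hrp] at h1
      exact h2.2 h1.1
    have hsub : SA ∪ SA.image Prod.swap ⊆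
        univ.filter fun p : ι × ι => p.1 ≠ p.2 ∧ (ln a p.1 p.2).card ≠ 3 := by
      intro p hp
      rw [mem_filter]
      refine ⟨mem_univ _, ?_⟩
      rcases mem_union.mp hp with hp | hp
      · exact ⟨hne p (mem_filter.mp hp).1, (mem_filter.mp hp).2⟩
      · obtain ⟨r, hr, rfl⟩ := mem_image.mp hp
        refine ⟨(hne r (mem_filter.mp hr).1).symm, ?_⟩
        have := (mem_filter.mp hr).2
        rw [ln_comm] at this
        exact this
    have := card_le_card hsub
    rw [card_union_of_disjoint hdis, hsw] at this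
    rw [D2]
    omega
  -- SC
  have hC : SC.card ≤ (Fintype.card ι - Z.card) * (Fintype.card ι - Z.card - 1) := by
    have hch : ∀ p : ι × ι, ∃ k, p ∈ SC → k ∉ Z ∧ k ≠ p.2 ∧ ln a p.1 p.2 = {p.1, p.2, k} := by
      intro p
      by_cases hp : p ∈ SC
      · obtain ⟨k, hk⟩ := (mem_filter.mp hp).2
        exact ⟨k, fun _ => hk⟩
      · exact ⟨p.1, fun h => absurd h hp⟩
    choose K hK using hch
    have hinj : SC.card ≤ (Zᶜ).offDiag.card := by
      apply card_le_card_of_injOn (fun p => (p.2, K p))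
      · intro p hp
        have hp1 : p ∈ SC := hp
        have hp' := (hmemS p).mp (mem_filter.mp hp1).1
        obtain ⟨h1, h2, h3⟩ := hK p hp1
        show (p.2, K p) ∈ (Zᶜ).offDiag
        rw [mem_offDiag]
        exact ⟨mem_compl.mpr hp'.2, mem_compl.mpr h1, h2.symm⟩
      · intro p hp r hr hpr
        have hp1 : p ∈ SC := hp
        have hr1 : r ∈ SC := hr
        have hp' := (hmemS p).mp (mem_filter.mp hp1).1
        have hr' := (hmemS r).mp (mem_filter.mp hr1).1
        obtain ⟨h1, h2, h3⟩ := hK p hp1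
        obtain ⟨g1, g2, g3⟩ := hK r hr1
        have e1 : p.2 = r.2 := congrArg Prod.fst hpr
        have e2 : K p = K r := congrArg Prod.snd hpr
        have hpn : p.1 ≠ p.2 := hne p (mem_filter.mp hp1).1
        have hrn : r.1 ≠ r.2 := hne r (mem_filter.mp hr1).1
        have m1 : p.2 ∈ ln a p.1 p.2 := right_mem a _ _
        have m2 : K p ∈ ln a p.1 p.2 := by rw [h3]; simp
        have m3 : r.2 ∈ ln a r.1 r.2 := right_mem a _ _
        have m4 : K r ∈ ln a r.1 r.2 := by rw [g3]; simp
        have l1 : ln a p.2 (K p) = ln a p.1 p.2 := ln_eq a hP hpn h2.symm m1 m2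
        have l2 : ln a r.2 (K r) = ln a r.1 r.2 := ln_eq a hP hrn g2.symm m3 m4
        have l3 : ln a p.1 p.2 = ln a r.1 r.2 := by rw [← l1, ← l2, e1, e2]
        have m5 : p.1 ∈ ln a r.1 r.2 := by rw [← l3]; exact left_mem a _ _
        rw [g3, mem_insert, mem_insert, mem_singleton] at m5
        rcases m5 with m5 | m5 | m5
        · exact Prod.ext m5 e1
        · exact absurd (m5 ▸ hp'.1) hr'.2
        · exact absurd (m5 ▸ hp'.1) g1
    rw [offDiag_card, hcompl] at hinj
    rw [Nat.mul_sub, mul_one]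
    exact hinj
  rw [hTT, ← hScard]
  omega

theorem low : LowStmt := fun _ _ a c hP => low_main a c hP

end Pool.Agent.GTO.H52
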