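import Pool.Agent.GTO.StmtsB
import Pool.Agent.Helper52_GTO.LOW

/-! Squad GTO, module QZB. -/

namespace Pool.Agent.GTO.H52

open Finset
open scoped Classical

theorem grd_self (c : Fin 10 → ℝ) (v : V) : ip (grd c v) v = 3 * cub c v := by
  simp only [ip, grd, cub, Matrix.cons_val_zero, Matrix.cons_val_one, Matrix.cons_val]
  ring

theorem ip_comb (w u v : V) (s t : ℝ) : ip w (s • u + t • v) = s * ip w u + t * ip w v := by
  simp only [ip, Pi.smul_apply, Pi.add_apply, smul_eq_mul]
  ring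

theorem cub_smul (c : Fin 10 → ℝ) (t : ℝ) (v : V) : cub c (t • v) = t ^ 3 * cub c v := by
  simp only [cub, Pi.smul_apply, smul_eq_mul]
  ring

/-- parallel non-zero vectors -/
theorem par_smul {u v : V} (hv : v ≠ 0) (h : cr u v = 0) : ∃ t : ℝ, u = t • v := by
  rw [cr_eq_zero_iff] at h
  obtain ⟨h0, h1, h2⟩ := h
  have hne : ∃ i, v i ≠ 0 := by
    by_contra hh
    push Not at hh
    exact hv (funext hh)
  obtain ⟨i, hi⟩ := hne
  refine ⟨u i / v i, ?_⟩
  have key : ∀ j, v i * u j = u i * v j := by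
    intro j
    fin_cases i <;> fin_cases j <;>
      simp only [Fin.zero_eta, Fin.mk_one, Fin.reduceFinMk] <;> linarith
  funext j
  rw [Pi.smul_apply, smul_eq_mul, div_mul_eq_mul_div, eq_div_iff hi]
  linarith [key j]

theorem cr_self (u : V) : cr u u = 0 := by
  rw [cr_eq_zero_iff]
  refine ⟨?_, ?_, ?_⟩ <;> ring

theorem cr_symm0 {u v : V} (h : cr u v = 0) : cr v u = 0 := by
  rw [cr_eq_zero_iff] at h ⊢
  obtain ⟨h0, h1, h2⟩ := h
  refine ⟨?_, ?_, ?_⟩ <;> linarith

theorem qzb_main (hCT : Ct6Stmt) (hOFF : OffStmt) (hTGV : TgvStmt) : QzbStmt := by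
  intro ι _ a c G _ φ H hC q hq
  obtain ⟨ct1, ct2, ct3, ct4, ct5⟩ := hCT ι a c G φ H hC
  have hP := hC.pi
  set Q := QQ a c φ H with hQdef
  have hQ : ∀ i, i ∈ Q ↔ Ns c (a i) ∧ φ (a i) ∈ H := by
    intro i
    rw [hQdef, QQ, mem_filter]
    simp
  set W := Q.filter fun i => (ln a q i).card = 3 with hW
  have hmemW : ∀ i ∈ W, i ∈ Q ∧ (ln a q i).card = 3 := fun i hi => mem_filter.mp hi
  have hqi : ∀ i ∈ Q, q ≠ i := fun i hi h => hq (h ▸ hi)
  -- third points
  have hch : ∀ i, ∃ k, i ∈ W → k ≠ q ∧ k ≠ i ∧ ln a q i = {q, i, k} := by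
    intro i
    by_cases hi : i ∈ W
    · obtain ⟨k, hk⟩ := third_pt a (hqi i (hmemW i hi).1) (hmemW i hi).2
      exact ⟨k, fun _ => hk⟩
    · exact ⟨i, fun h => absurd h hi⟩
  choose K hK using hch
  have hKmem : ∀ i ∈ W, K i ∈ ln a q i := by
    intro i hi
    rw [(hK i hi).2.2]; simp
  -- K is injective on W
  have hKinj : ∀ i ∈ W, ∀ j ∈ W, K i = K j → i = j := by
    intro i hi j hj hij
    have l1 : ln a q (K i) = ln a q i :=
      ln_eq a hP (hqi i (hmemW i hi).1) (hK i hi).1.symm (left_mem a _ _) (hKmem i hi)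
    have l2 : ln a q (K j) = ln a q j :=
      ln_eq a hP (hqi j (hmemW j hj).1) (hK j hj).1.symm (left_mem a _ _) (hKmem j hj)
    have l3 : ln a q i = ln a q j := by rw [← l1, ← l2, hij]
    have m : i ∈ ln a q j := by rw [← l3]; exact right_mem a _ _
    rw [(hK j hj).2.2, mem_insert, mem_insert, mem_singleton] at m
    rcases m with m | m | m
    · exact absurd m.symm (hqi i (hmemW i hi).1)
    · exact m
    · exact absurd (m.trans hij.symm).symm (hK i hi).2.1
  -- the four classes
  set W1 := W.filter fun i => K i ∉ Q with hW1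
  set W2 := W.filter fun i => K i ∈ Q ∧ -φ (a i) - φ (a (K i)) ∈ MM a c φ H with hW2
  set W3 := W.filter fun i => K i ∈ Q ∧ φ (a i) + φ (a i) + φ (a (K i)) = 0 with hW3
  set W4 := W.filter fun i => K i ∈ Q ∧ φ (a (K i)) + φ (a (K i)) + φ (a i) = 0 with hW4
  -- basic facts for `K i ∈ Q`
  have hsum : ∀ i ∈ W, K i ∈ Q → -φ (a i) - φ (a (K i)) ∈ H := by
    intro i hi hk
    exact hC.clo _ ((hQ i).mp (hmemW i hi).1).2 _ ((hQ _).mp hk).2
  have hcube : ∀ i ∈ W, K i ∈ Q → cub c (a q) ≠ 0 := by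
    intro i hi hk
    apply hOFF ι a c G φ H hC i (hmemW i hi).1 (K i) hk (hK i hi).2.1.symm q hq
    have l1 : ln a i (K i) = ln a q i :=
      ln_eq a hP (hqi i (hmemW i hi).1) (hK i hi).2.1.symm (right_mem a _ _) (hKmem i hi)
    rw [l1]; exact left_mem a _ _
  -- cover
  have hcov : W ⊆ W1 ∪ (W2 ∪ (W3 ∪ W4)) := by
    intro i hi
    by_cases hk : K i ∈ Q
    · have hs := hsum i hi hk
      by_cases hm : -φ (a i) - φ (a (K i)) ∈ MM a c φ H
      · exact mem_union_right _ (mem_union_left _ (mem_filter.mpr ⟨hi, hk, hm⟩))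
      · -- some `j ∈ Q` with this value
        have hj : ∃ j ∈ Q, φ (a j) = -φ (a i) - φ (a (K i)) := by
          by_contra hh
          push Not at hh
          apply hm
          rw [MM, mem_filter]
          exact ⟨hs, hh⟩
        obtain ⟨j, hjQ, hj⟩ := hj
        have hz : φ (a i) + φ (a (K i)) + φ (a j) = 0 := by rw [hj]; abel
        by_cases hji : j = i
        · refine mem_union_right _ (mem_union_right _ (mem_union_left _ ?_))
          rw [hW3, mem_filter]
          refine ⟨hi, hk, ?_⟩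
          rw [hji] at hz
          rw [← hz]; abel
        · by_cases hjk : j = K i
          · refine mem_union_right _ (mem_union_right _ (mem_union_right _ ?_))
            rw [hW4, mem_filter]
            refine ⟨hi, hk, ?_⟩
            rw [hjk] at hz
            rw [← hz]; abel
          · exfalso
            have h5 := (ct5 i (hmemW i hi).1 (K i) hk j hjQ (hK i hi).2.1.symm
              (Ne.symm hjk) hji).mpr hz
            have l1 : ln a i (K i) = ln a q i :=
              ln_eq a hP (hqi i (hmemW i hi).1) (hK i hi).2.1.symm (right_mem a _ _)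
                (hKmem i hi)
            rw [l1, (hK i hi).2.2, mem_insert, mem_insert, mem_singleton] at h5
            rcases h5 with h5 | h5 | h5
            · exact hqi j hjQ h5.symm
            · exact hji h5
            · exact hjk h5
    · exact mem_union_left _ (mem_filter.mpr ⟨hi, hk⟩)
  have hcard : W.card ≤ W1.card + (W2.card + (W3.card + W4.card)) := by
    calc W.card ≤ (W1 ∪ (W2 ∪ (W3 ∪ W4))).card := card_le_card hcov
      _ ≤ W1.card + (W2 ∪ (W3 ∪ W4)).card := card_union_le _ _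
      _ ≤ W1.card + (W2.card + (W3 ∪ W4).card) :=
        Nat.add_le_add_left (card_union_le _ _) _
      _ ≤ W1.card + (W2.card + (W3.card + W4.card)) :=
        Nat.add_le_add_left (Nat.add_le_add_left (card_union_le _ _) _) _
  -- W1
  have h1 : W1.card ≤ Fintype.card ι - Q.card - 1 := by
    have : W1.card ≤ ((Qᶜ).erase q).card := by
      apply card_le_card_of_injOn K
      · intro i hi
        have hi' := mem_filter.mp (show i ∈ W1 from hi)
        show K i ∈ (Qᶜ).erase q
        rw [mem_erase, mem_compl]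
        exact ⟨(hK i hi'.1).1, hi'.2⟩
      · intro i hi j hj hij
        exact hKinj i (mem_filter.mp (show i ∈ W1 from hi)).1 j
          (mem_filter.mp (show j ∈ W1 from hj)).1 hij
    rwa [card_erase_of_mem (mem_compl.mpr hq), card_compl] at this
  -- W3
  have hq0 : ∀ i ∈ Q, a q ≠ 0 := by
    intro i hi h0
    apply hP q i (hqi i hi)
    rw [h0, cr_eq_zero_iff]
    simp
  have hqcomb : ∀ i ∈ W, ∃ s t : ℝ, a q = s • a i + t • a (K i) := by
    intro i hi
    have l1 : ln a i (K i) = ln a q i :=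
      ln_eq a hP (hqi i (hmemW i hi).1) (hK i hi).2.1.symm (right_mem a _ _) (hKmem i hi)
    have m : q ∈ ln a i (K i) := by rw [l1]; exact left_mem a _ _
    rw [mem_ln] at m
    exact (dt_zero_iff _ _ _ (hP _ _ (hK i hi).2.1.symm)).mp m
  have h3 : W3.card ≤ 6 := by
    rcases W3.eq_empty_or_nonempty with he | ⟨i0, hi0⟩
    · rw [he]; simp
    · have hq0' := hq0 i0 (hmemW i0 (mem_filter.mp hi0).1).1
      refine le_trans (card_le_card ?_) (ct2 (a q) hq0')
      intro i hi
      have hi' := mem_filter.mp hi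
      have hiQ := (hmemW i hi'.1).1
      rw [mem_filter]
      refine ⟨hiQ, ?_⟩
      obtain ⟨s, t, hst⟩ := hqcomb i hi'.1
      have hns := ((hQ i).mp hiQ).1
      have e1 := hTGV c G φ hC.grp (a i) (a (K i)) hns ((hQ _).mp hi'.2.1).1 hi'.2.2
      rw [hst, ip_comb, e1, grd_self, hns.2.1]
      ring
  have h4 : W4.card ≤ 6 := by
    rcases W4.eq_empty_or_nonempty with he | ⟨i0, hi0⟩
    · rw [he]; simp
    · have hq0' := hq0 i0 (hmemW i0 (mem_filter.mp hi0).1).1
      refine le_trans ?_ (ct2 (a q) hq0')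
      apply card_le_card_of_injOn K
      · intro i hi
        have hi' := mem_filter.mp (show i ∈ W4 from hi)
        show K i ∈ Q.filter fun i => ip (grd c (a i)) (a q) = 0
        rw [mem_filter]
        refine ⟨hi'.2.1, ?_⟩
        obtain ⟨s, t, hst⟩ := hqcomb i hi'.1
        have hns := ((hQ i).mp (hmemW i hi'.1).1).1
        have hnk := ((hQ _).mp hi'.2.1).1
        have e1 := hTGV c G φ hC.grp (a (K i)) (a i) hnk hns hi'.2.2
        rw [hst, ip_comb, e1, grd_self, hnk.2.1]
        ring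
      · intro i hi j hj hij
        exact hKinj i (mem_filter.mp (show i ∈ W4 from hi)).1 j
          (mem_filter.mp (show j ∈ W4 from hj)).1 hij
  -- W2
  have h2 : W2.card ≤ 2 * (MM a c φ H).card := by
    have hpt : ∀ μ, ∃ v, μ ∈ H → Ns c v ∧ φ v = μ := by
      intro μ
      by_cases hμ : μ ∈ H
      · obtain ⟨v, hv⟩ := hC.pts μ hμ
        exact ⟨v, fun _ => hv⟩
      · exact ⟨0, fun h => absurd h hμ⟩
    choose P hPt using hpt
    have hsub : W2 ⊆ (MM a c φ H).biUnion fun μ => W2.filter fun i =>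
        -φ (a i) - φ (a (K i)) = μ := by
      intro i hi
      rw [mem_biUnion]
      exact ⟨_, (mem_filter.mp hi).2.2, mem_filter.mpr ⟨hi, rfl⟩⟩
    refine le_trans (card_le_card hsub) (le_trans card_biUnion_le ?_)
    have hb : ∀ μ ∈ MM a c φ H, (W2.filter fun i => -φ (a i) - φ (a (K i)) = μ).card ≤ 2 := by
      intro μ hμ
      rcases (W2.filter fun i => -φ (a i) - φ (a (K i)) = μ).eq_empty_or_nonempty with
        he | ⟨i0, hi0⟩
      · rw [he]; simp
      have hμ' : μ ∈ H ∧ ∀ i ∈ QQ a c φ H, φ (a i) ≠ μ := by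
        rw [MM, mem_filter] at hμ
        exact hμ
      obtain ⟨hns, hφ⟩ := hPt μ hμ'.1
      have hi0' := mem_filter.mp (mem_filter.mp hi0).1
      have hqz := hcube i0 hi0'.1 hi0'.2.1
      have hpar : ∀ i ∈ Q, cr (a i) (P μ) ≠ 0 := by
        intro i hi h0
        have := (hC.grp.par (a i) (P μ) ((hQ i).mp hi).1 hns).mpr h0
        exact hμ'.2 i hi (this.trans hφ)
      have hcq : cr (a q) (P μ) ≠ 0 := by
        intro h0
        obtain ⟨t, ht⟩ := par_smul hns.1 h0
        apply hqz
        rw [ht, cub_smul, hns.2.1, mul_zero]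
      refine le_trans (card_le_card ?_) (ct3 (P μ) (a q) hns.2.1 hcq hpar)
      intro i hi
      have hi1 := mem_filter.mp hi
      have hi' := mem_filter.mp hi1.1
      have hiQ := (hmemW i hi'.1).1
      have hkQ := hi'.2.1
      rw [mem_filter]
      refine ⟨hiQ, ?_⟩
      -- `P μ` is on the line of `a i`, `a (K i)`
      have hz : φ (a i) + φ (a (K i)) + φ (P μ) = 0 := by
        rw [hφ, ← hi1.2]; abel
      have hik : cr (a i) (a (K i)) ≠ 0 := hP _ _ (hK i hi'.1).2.1.symm
      have hcol := (hC.grp.col (a i) (a (K i)) (P μ) ((hQ i).mp hiQ).1 ((hQ _).mp hkQ).1 hns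
        hik (hpar _ hkQ) (fun h => hpar i hiQ (cr_symm0 h))).mpr hz
      obtain ⟨s, t, hst⟩ := hqcomb i hi'.1
      obtain ⟨s', t', hst'⟩ := (dt_zero_iff _ _ _ hik).mp hcol
      rw [hst, hst']
      simp only [dt, Pi.smul_apply, Pi.add_apply, smul_eq_mul]
      ring
    calc ∑ μ ∈ MM a c φ H, (W2.filter fun i => -φ (a i) - φ (a (K i)) = μ).card
        ≤ ∑ _μ ∈ MM a c φ H, 2 := Finset.sum_le_sum hb
      _ = 2 * (MM a c φ H).card := by rw [sum_const, smul_eq_mul, mul_comm]
  omega

theorem qzb (hCT : Ct6Stmt) (hOFF : OffStmt) (hTGV : TgvStmt) : QzbStmt :=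
  qzb_main hCT hOFF hTGV

end Pool.Agent.GTO.H52
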